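import Pool.Agent.H22.SZ.TD
import Pool.Agent.H23.GLH.GammaStrip

/-!
# Row YS of the board `szp_modules`: the size of the factor of the functional equation
-/

set_option autoImplicit false

open Complex MeasureTheory Set Filter Topology

namespace Pool.Agent.H60.SZ

open Pool.Agent.H22.SZ
open Pool.Agent.H23.GLH (PrimChar)
open Pool.Agent.H74.LI (bar ds)
open Pool.Agent.H28.MZ (co ei dv)

/-- the constant of the strip -/
noncomputable def cg : ℝ := 4 * Real.sqrt (2 * Real.pi) * Real.exp (9 / 4)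

theorem cg_pos : 0 < cg := by
  unfold cg
  positivity

/-- The Stirling bound for `1/8 ≤ x ≤ 2`. -/
theorem gamma_bound (x v : ℝ) (h1 : 1 / 8 ≤ x) (h2 : x ≤ 2) :
    ‖Complex.Gamma (x + v * I)‖ ≤
      9 * cg * (1 + |v|) ^ (x - 1 / 2) * Real.exp (-(Real.pi * |v| / 2)) := by
  have hv : 0 ≤ |v| := abs_nonneg v
  have hc := cg_pos
  have hE := Real.exp_pos (-(Real.pi * |v| / 2))
  have hP : 0 < (1 + |v|) ^ (x - 1 / 2) := Real.rpow_pos_of_pos (by linarith) _
  rcases lt_or_ge x (1 / 2) with hx | hx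
  · have h3 := Pool.Agent.H23.GLH.norm_Gamma_strip (x + 1) v (by linarith) (by linarith)
    have hs : ((x : ℂ) + v * I) ≠ 0 := by
      intro h
      have := congrArg Complex.re h
      simp at this
      linarith
    have h4 : Complex.Gamma (((x + 1 : ℝ) : ℂ) + v * I) =
        ((x : ℂ) + v * I) * Complex.Gamma (x + v * I) := by
      rw [← Complex.Gamma_add_one _ hs]
      congr 1
      push_cast
      ring
    rw [h4, norm_mul] at h3
    have h5 : 1 + |v| ≤ 9 * ‖(x : ℂ) + v * I‖ := by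
      have ha := Complex.abs_re_le_norm ((x : ℂ) + v * I)
      have hb := Complex.abs_im_le_norm ((x : ℂ) + v * I)
      simp only [add_re, ofReal_re, mul_re, I_re, mul_zero, ofReal_im, I_im, mul_one,
        sub_self, add_zero] at ha
      simp only [add_im, ofReal_im, mul_im, ofReal_re, I_im, mul_one, I_re, mul_zero,
        add_zero, zero_add] at hb
      rw [abs_of_pos (by linarith)] at ha
      linarith
    have h6 : (1 + |v|) ^ (x + 1 - 1 / 2) = (1 + |v|) ^ (x - 1 / 2) * (1 + |v|) := by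
      rw [show x + 1 - 1 / 2 = (x - 1 / 2) + 1 by ring,
        Real.rpow_add_one (by linarith)]
    rw [h6] at h3
    have h7 : (1 + |v|) * ‖Complex.Gamma (x + v * I)‖ ≤
        (1 + |v|) * (9 * cg * (1 + |v|) ^ (x - 1 / 2) * Real.exp (-(Real.pi * |v| / 2))) := by
      calc (1 + |v|) * ‖Complex.Gamma (x + v * I)‖
          ≤ (9 * ‖(x : ℂ) + v * I‖) * ‖Complex.Gamma (x + v * I)‖ := by gcongr
        _ = 9 * (‖(x : ℂ) + v * I‖ * ‖Complex.Gamma (x + v * I)‖) := by ring
        _ ≤ 9 * (4 * Real.sqrt (2 * Real.pi) * Real.exp (9 / 4) *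
            ((1 + |v|) ^ (x - 1 / 2) * (1 + |v|)) * Real.exp (-(Real.pi * |v| / 2))) := by
            gcongr
        _ = _ := by unfold cg; ring
    exact le_of_mul_le_mul_left h7 (by linarith)
  · rcases le_or_gt x (3 / 2) with hx2 | hx2
    · have h3 := Pool.Agent.H23.GLH.norm_Gamma_strip x v hx hx2
      refine h3.trans ?_
      have h4 : 0 < cg * (1 + |v|) ^ (x - 1 / 2) * Real.exp (-(Real.pi * |v| / 2)) := by
        positivity
      have h5 : 4 * Real.sqrt (2 * Real.pi) * Real.exp (9 / 4) = cg := rfl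
      rw [h5]
      nlinarith
    · have h3 := Pool.Agent.H23.GLH.norm_Gamma_strip (x - 1) v (by linarith) (by linarith)
      have hs : (((x - 1 : ℝ) : ℂ) + v * I) ≠ 0 := by
        intro h
        have := congrArg Complex.re h
        simp at this
        linarith
      have h4 : Complex.Gamma ((x : ℂ) + v * I) =
          (((x - 1 : ℝ) : ℂ) + v * I) * Complex.Gamma (((x - 1 : ℝ) : ℂ) + v * I) := by
        rw [← Complex.Gamma_add_one _ hs]
        congr 1
        push_cast
        ring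
      rw [h4, norm_mul]
      have h5 : ‖(((x - 1 : ℝ) : ℂ) + v * I)‖ ≤ 1 + |v| := by
        refine (norm_add_le _ _).trans ?_
        rw [norm_mul, Complex.norm_I, mul_one, Complex.norm_real, Complex.norm_real,
          Real.norm_eq_abs, Real.norm_eq_abs, abs_of_pos (by linarith : (0 : ℝ) < x - 1)]
        linarith
      have h6 : (1 + |v|) ^ (x - 1 / 2) = (1 + |v|) ^ (x - 1 - 1 / 2) * (1 + |v|) := by
        rw [show x - 1 / 2 = (x - 1 - 1 / 2) + 1 by ring,
          Real.rpow_add_one (by linarith)]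
      have hP' : 0 < (1 + |v|) ^ (x - 1 - 1 / 2) := Real.rpow_pos_of_pos (by linarith) _
      calc ‖(((x - 1 : ℝ) : ℂ) + v * I)‖ * ‖Complex.Gamma (((x - 1 : ℝ) : ℂ) + v * I)‖
          ≤ (1 + |v|) * (4 * Real.sqrt (2 * Real.pi) * Real.exp (9 / 4) *
            (1 + |v|) ^ (x - 1 - 1 / 2) * Real.exp (-(Real.pi * |v| / 2))) := by gcongr
        _ = cg * (1 + |v|) ^ (x - 1 / 2) * Real.exp (-(Real.pi * |v| / 2)) := by
            rw [h6]; unfold cg; ring
        _ ≤ _ := by
            have h7 : 0 < cg * (1 + |v|) ^ (x - 1 / 2) * Real.exp (-(Real.pi * |v| / 2)) := by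
              positivity
            nlinarith

theorem pf_YS : T_YS := by
  intro q σ hq hσ
  refine ⟨Real.exp (2 * |Real.log (q / (2 * Real.pi))|) * (9 * cg) * 2, ?_, ?_⟩
  · have := cg_pos
    positivity
  intro x v h1 h2
  unfold Yk
  rw [norm_mul, norm_mul]
  have hA : ‖cexp (((x : ℂ) + v * I) * Real.log (q / (2 * Real.pi)))‖ ≤
      Real.exp (2 * |Real.log (q / (2 * Real.pi))|) := by
    rw [Complex.norm_exp]
    refine Real.exp_le_exp.2 ?_
    have h3 : (((x : ℂ) + v * I) * (Real.log (q / (2 * Real.pi)) : ℝ)).re =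
        x * Real.log (q / (2 * Real.pi)) := by
      simp [mul_re, add_re]
    rw [h3]
    have h4 := le_abs_self (Real.log (q / (2 * Real.pi)))
    have h5 := abs_nonneg (Real.log (q / (2 * Real.pi)))
    nlinarith
  have hB := gamma_bound x v h1 h2
  have e1 : ‖cexp (-(Real.pi / 2 * I * ((x : ℂ) + v * I)))‖ ≤ Real.exp (Real.pi * |v| / 2) := by
    rw [Complex.norm_exp]
    refine Real.exp_le_exp.2 ?_
    have h3 : (-((Real.pi : ℂ) / 2 * I * ((x : ℂ) + v * I))).re = Real.pi * v / 2 := by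
      have : -((Real.pi : ℂ) / 2 * I * ((x : ℂ) + v * I)) =
          ((Real.pi * v / 2 : ℝ) : ℂ) + ((-(Real.pi * x / 2) : ℝ) : ℂ) * I := by
        push_cast
        ring_nf
        rw [I_sq]
        ring
      rw [this]
      simp
    rw [h3]
    have h4 := le_abs_self v
    have h5 := Real.pi_pos
    nlinarith
  have e2 : ‖cexp (Real.pi / 2 * I * ((x : ℂ) + v * I))‖ ≤ Real.exp (Real.pi * |v| / 2) := by
    rw [Complex.norm_exp]
    refine Real.exp_le_exp.2 ?_
    have h3 : ((Real.pi : ℂ) / 2 * I * ((x : ℂ) + v * I)).re = -(Real.pi * v / 2) := by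
      have : (Real.pi : ℂ) / 2 * I * ((x : ℂ) + v * I) =
          ((-(Real.pi * v / 2) : ℝ) : ℂ) + ((Real.pi * x / 2 : ℝ) : ℂ) * I := by
        push_cast
        ring_nf
        rw [I_sq]
        ring
      rw [this]
      simp
    rw [h3]
    have h4 := neg_abs_le v
    have h5 := Real.pi_pos
    nlinarith
  have hσ1 : ‖σ‖ = 1 := by
    rcases hσ with h | h <;> rw [h] <;> simp
  have hC : ‖cexp (-(Real.pi / 2 * I * ((x : ℂ) + v * I))) +
      σ * cexp (Real.pi / 2 * I * ((x : ℂ) + v * I))‖ ≤ 2 * Real.exp (Real.pi * |v| / 2) := by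
    refine (norm_add_le _ _).trans ?_
    rw [norm_mul, hσ1, one_mul]
    linarith
  have hcg := cg_pos
  have hP : 0 < (1 + |v|) ^ (x - 1 / 2) :=
    Real.rpow_pos_of_pos (by have := abs_nonneg v; linarith) _
  have hee : Real.exp (-(Real.pi * |v| / 2)) * Real.exp (Real.pi * |v| / 2) = 1 := by
    rw [← Real.exp_add]
    simp
  calc ‖cexp (((x : ℂ) + v * I) * Real.log (q / (2 * Real.pi)))‖ *
        ‖Complex.Gamma ((x : ℂ) + v * I)‖ *
        ‖cexp (-(Real.pi / 2 * I * ((x : ℂ) + v * I))) +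
          σ * cexp (Real.pi / 2 * I * ((x : ℂ) + v * I))‖
      ≤ Real.exp (2 * |Real.log (q / (2 * Real.pi))|) *
        (9 * cg * (1 + |v|) ^ (x - 1 / 2) * Real.exp (-(Real.pi * |v| / 2))) *
        (2 * Real.exp (Real.pi * |v| / 2)) := by gcongr
    _ = Real.exp (2 * |Real.log (q / (2 * Real.pi))|) * (9 * cg) * 2 *
        (1 + |v|) ^ (x - 1 / 2) *
        (Real.exp (-(Real.pi * |v| / 2)) * Real.exp (Real.pi * |v| / 2)) := by ring
    _ = _ := by rw [hee, mul_one]

end Pool.Agent.H60.SZ
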